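import Mathlib

set_option autoImplicit false

/-!
A zero-sum theorem for `(ZMod (2 ^ d)) ^ V` through the group ring over `ZMod 2`.
-/

namespace Pool.Agent.Helper73

open Finset

section

variable (V : Type) [Fintype V] (d : ℕ)

/-- the group ring -/
abbrev GR : Type := AddMonoidAlgebra (ZMod 2) (V → ZMod (2 ^ d))

variable {V d}

noncomputable def mon (a : V → ZMod (2 ^ d)) : GR V d := AddMonoidAlgebra.single a 1

lemma mon_add (a b : V → ZMod (2 ^ d)) : mon (a + b) = mon a * mon b := by
  simp [mon, AddMonoidAlgebra.single_mul_single]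

lemma mon_zero : mon (0 : V → ZMod (2 ^ d)) = 1 := rfl

lemma mon_sum {ι : Type} (s : Finset ι) (a : ι → V → ZMod (2 ^ d)) :
    mon (∑ i ∈ s, a i) = ∏ i ∈ s, mon (a i) := by
  classical
  induction s using Finset.induction_on with
  | empty => simp [mon_zero]
  | insert x s hx ih => rw [Finset.sum_insert hx, Finset.prod_insert hx, mon_add, ih]

lemma mon_nsmul (n : ℕ) (a : V → ZMod (2 ^ d)) : mon (n • a) = mon a ^ n := by
  induction n with
  | zero => simp [mon_zero]
  | succ n ih => rw [succ_nsmul, mon_add, ih, pow_succ]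

instance : CharP (GR V d) 2 :=
  charP_of_injective_algebraMap (R := ZMod 2) (A := GR V d)
    (by
      intro x y h
      have := congrArg (fun f : GR V d => f.coeff 0) h
      simpa [AddMonoidAlgebra.algebraMap_def] using this) 2

variable [DecidableEq V]

noncomputable def gen (x : V) : GR V d := 1 - mon (Pi.single x 1)

lemma gen_pow (x : V) : (gen x : GR V d) ^ (2 ^ d) = 0 := by
  rw [gen, sub_pow_char_pow, one_pow, ← mon_nsmul]
  have : (2 ^ d) • (Pi.single x 1 : V → ZMod (2 ^ d)) = 0 := by
    funext y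
    by_cases h : y = x
    · subst h
      simp only [Pi.smul_apply, Pi.single_eq_same, Pi.zero_apply, nsmul_eq_mul, mul_one]
      exact_mod_cast ZMod.natCast_self (2 ^ d)
    · simp [h]
  rw [this, mon_zero, sub_self]

/-- the augmentation ideal -/
noncomputable def aug (s : Finset V) : Ideal (GR V d) := ⨆ x ∈ s, Ideal.span {gen x}

lemma aug_pow (s : Finset V) (hs : s.Nonempty) :
    (aug s : Ideal (GR V d)) ^ (#s * 2 ^ d) ≤ ⊥ := by
  induction hs using Finset.Nonempty.cons_induction with
  | singleton x =>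
    simp only [aug, Finset.mem_singleton, iSup_iSup_eq_left, Finset.card_singleton, one_mul]
    rw [Ideal.span_singleton_pow, gen_pow]
    simp
  | cons x s hx hs ih =>
    rw [Finset.cons_eq_insert]
    have h1 : (aug (insert x s) : Ideal (GR V d)) = Ideal.span {gen x} ⊔ aug s := by
      rw [aug, aug, Finset.iSup_insert]
    rw [h1, Finset.card_insert_of_notMem hx, add_mul, one_mul, add_comm]
    refine Ideal.sup_pow_add_le_pow_sup_pow.trans (sup_le ?_ ih)
    rw [Ideal.span_singleton_pow, gen_pow]
    simp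

lemma one_sub_mon_mem (a : V → ZMod (2 ^ d)) : 1 - mon a ∈ (aug Finset.univ : Ideal (GR V d)) := by
  have hadd : ∀ a b : V → ZMod (2 ^ d), 1 - mon a ∈ (aug Finset.univ : Ideal (GR V d)) →
      1 - mon b ∈ (aug Finset.univ : Ideal (GR V d)) →
      1 - mon (a + b) ∈ (aug Finset.univ : Ideal (GR V d)) := by
    intro a b ha hb
    rw [mon_add]
    have : (1 : GR V d) - mon a * mon b = (1 - mon a) + mon a * (1 - mon b) := by ring
    rw [this]
    exact Ideal.add_mem _ ha (Ideal.mul_mem_left _ _ hb)
  have hzero : 1 - mon (0 : V → ZMod (2 ^ d)) ∈ (aug Finset.univ : Ideal (GR V d)) := by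
    rw [mon_zero, sub_self]; exact Ideal.zero_mem _
  have hgen : ∀ x : V, 1 - mon (Pi.single x 1 : V → ZMod (2 ^ d)) ∈
      (aug Finset.univ : Ideal (GR V d)) := by
    intro x
    have h1 : Ideal.span {gen x} ≤ (aug Finset.univ : Ideal (GR V d)) :=
      le_iSup₂_of_le x (Finset.mem_univ x) le_rfl
    exact h1 (Ideal.mem_span_singleton_self _)
  have hn : ∀ (n : ℕ) (x : V), 1 - mon (n • (Pi.single x 1 : V → ZMod (2 ^ d))) ∈
      (aug Finset.univ : Ideal (GR V d)) := by
    intro n x
    induction n with
    | zero => simpa using hzero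
    | succ n ih => rw [succ_nsmul]; exact hadd _ _ ih (hgen x)
  have hsum : ∀ s : Finset V, 1 - mon (∑ x ∈ s, (a x).val • (Pi.single x 1 : V → ZMod (2 ^ d))) ∈
      (aug Finset.univ : Ideal (GR V d)) := by
    intro s
    induction s using Finset.induction_on with
    | empty => simpa using hzero
    | insert x s hx ih => rw [Finset.sum_insert hx]; exact hadd _ _ (hn _ _) ih
  have ha : a = ∑ x, (a x).val • (Pi.single x 1 : V → ZMod (2 ^ d)) := by
    funext y
    rw [Finset.sum_apply, Finset.sum_eq_single y]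
    · simp
    · intro b _ hb
      simp [hb.symm]
    · intro h; exact absurd (Finset.mem_univ y) h
  rw [ha]
  exact hsum _

/-- every family of at least `|V| * 2 ^ d` elements has a nonempty zero-sum subfamily -/
theorem exists_zero_sum [Nonempty V] {ι : Type} (J : Finset ι) (a : ι → V → ZMod (2 ^ d))
    (hJ : Fintype.card V * 2 ^ d ≤ #J) : ∃ T ⊆ J, T.Nonempty ∧ ∑ i ∈ T, a i = 0 := by
  classical
  have h1 : ∏ i ∈ J, (1 + mon (a i)) = (0 : GR V d) := by
    have h2 : ∏ i ∈ J, (1 - mon (a i)) ∈ (aug Finset.univ : Ideal (GR V d)) ^ (#J) := by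
      have := Ideal.prod_mem_prod (s := J) (I := fun _ => (aug Finset.univ : Ideal (GR V d)))
        (x := fun i => 1 - mon (a i)) (fun i _ => one_sub_mon_mem (a i))
      simpa using this
    have h3 : (aug Finset.univ : Ideal (GR V d)) ^ (#J) ≤ ⊥ := by
      refine (Ideal.pow_le_pow_right ?_).trans (aug_pow Finset.univ Finset.univ_nonempty)
      simpa using hJ
    have h4 := (Submodule.mem_bot _).mp (h3 h2)
    rw [← h4]
    refine Finset.prod_congr rfl fun i _ => ?_
    rw [CharTwo.sub_eq_add]
  by_contra hcon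
  push Not at hcon
  rw [Finset.prod_one_add] at h1
  have h5 := congrArg (fun f : GR V d => f.coeff 0) h1
  simp only [← mon_sum, AddMonoidAlgebra.coeff_sum, Finsupp.finset_sum_apply,
    AddMonoidAlgebra.coeff_zero, Finsupp.zero_apply] at h5
  rw [← Finset.add_sum_erase _ _ (Finset.empty_mem_powerset J)] at h5
  have h6 : ∑ T ∈ J.powerset.erase ∅, (mon (∑ i ∈ T, a i) : GR V d).coeff 0 = 0 := by
    apply Finset.sum_eq_zero
    intro T hT
    rw [Finset.mem_erase, Finset.mem_powerset] at hT
    have := hcon T hT.2 (Finset.nonempty_iff_ne_empty.mpr hT.1)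
    rw [mon, AddMonoidAlgebra.coeff_single, Finsupp.single_apply, if_neg this]
  rw [h6, add_zero, Finset.sum_empty, mon, AddMonoidAlgebra.coeff_single, Finsupp.single_eq_same] at h5
  exact one_ne_zero h5

end

end Pool.Agent.Helper73
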