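import Mathlib
import Pool.Agent.Helper73.ZeroSum

set_option autoImplicit false

/-!
Proof of MP_048d5b_co.EventualEquality.  Graph pebbling: for every connected graph `G` with `n` vertices and diameter `d`, and every
`k ≥ 2 ^ (d + 1) * n ^ 2`, one has `π(G, C_k) = π_k(G)`.
-/

namespace Pool.Agent.Helper73.EE

open Finset

variable {V : Type}

/-- One pebbling step from `C` to `C'`: along an edge `u v` with `C u ≥ 2`, two pebbles are removed
from `u` and one pebble is added to `v`. -/
def Step (G : SimpleGraph V) (C C' : V → ℕ) : Prop :=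
  ∃ u v, G.Adj u v ∧ 2 ≤ C u ∧ C' u = C u - 2 ∧ C' v = C v + 1 ∧
    ∀ w, w ≠ u → w ≠ v → C' w = C w

/-- `C` is `D`-solvable: some finite sequence of pebbling steps turns `C` into some `C' ≥ D`. -/
def Solvable (G : SimpleGraph V) (C D : V → ℕ) : Prop :=
  ∃ C', Relation.ReflTransGen (Step G) C C' ∧ ∀ v, D v ≤ C' v

/-- The size (total number of pebbles) of a configuration. -/
def size [Fintype V] (C : V → ℕ) : ℕ := ∑ v, C v

/-- `π(G, 𝒟)`: the least `t` such that every configuration of size `t` is `D`-solvable for each
`D ∈ 𝒟`. -/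
noncomputable def pebblingNumber [Fintype V] (G : SimpleGraph V) (𝒟 : Set (V → ℕ)) : ℕ :=
  sInf {t | ∀ C : V → ℕ, size C = t → ∀ D ∈ 𝒟, Solvable G C D}

/-- The set of all configurations of size `k`. -/
def sizeTargets (V : Type) [Fintype V] (k : ℕ) : Set (V → ℕ) := {D | size D = k}

/-- The set of all configurations with `k` pebbles on one vertex and none elsewhere. -/
def foldTargets (V : Type) (k : ℕ) : Set (V → ℕ) := {D | ∃ v, D v = k ∧ ∀ w, w ≠ v → D w = 0}

section basic

variable [DecidableEq V] {G : SimpleGraph V}

lemma step_iff {C C' : V → ℕ} : Step G C C' ↔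
    ∃ u v, G.Adj u v ∧ C' + Pi.single u 2 = C + Pi.single v 1 := by
  constructor
  · rintro ⟨u, v, huv, h2, h3, h4, h5⟩
    refine ⟨u, v, huv, ?_⟩
    funext w
    have hne : u ≠ v := huv.ne
    by_cases hu : w = u
    · subst hu
      simp [hne, h3, h2]
    · by_cases hv : w = v
      · subst hv
        simp [hne.symm, h4]
      · simp [hu, hv, h5 w hu hv]
  · rintro ⟨u, v, huv, h⟩
    have hne : u ≠ v := huv.ne
    have h1 := congrFun h u
    have h2 := congrFun h v
    simp only [Pi.add_apply, Pi.single_eq_same, Pi.single_eq_of_ne hne, add_zero] at h1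
    simp only [Pi.add_apply, Pi.single_eq_same, Pi.single_eq_of_ne hne.symm, add_zero] at h2
    refine ⟨u, v, huv, by omega, by omega, h2, ?_⟩
    intro w hu hv
    have h3 := congrFun h w
    simpa [hu, hv] using h3

lemma Step.add {C C' : V → ℕ} (h : Step G C C') (E : V → ℕ) : Step G (C + E) (C' + E) := by
  rw [step_iff] at h ⊢
  obtain ⟨u, v, huv, h⟩ := h
  refine ⟨u, v, huv, ?_⟩
  rw [add_right_comm, h, add_right_comm]

lemma reach_add {C C' : V → ℕ} (h : Relation.ReflTransGen (Step G) C C') (E : V → ℕ) :
    Relation.ReflTransGen (Step G) (C + E) (C' + E) := by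
  induction h with
  | refl => exact Relation.ReflTransGen.refl
  | tail _ h2 ih => exact ih.tail (h2.add E)

lemma Solvable.refl' {C D : V → ℕ} (h : D ≤ C) : Solvable G C D :=
  ⟨C, Relation.ReflTransGen.refl, h⟩

lemma Solvable.add {A B D E : V → ℕ} (h1 : Solvable G A D) (h2 : Solvable G B E) :
    Solvable G (A + B) (D + E) := by
  obtain ⟨A', hA, hA'⟩ := h1
  obtain ⟨B', hB, hB'⟩ := h2
  refine ⟨A' + B', (reach_add hA B).trans ?_, fun v => add_le_add (hA' v) (hB' v)⟩
  have := reach_add hB A'
  rwa [add_comm B, add_comm B'] at this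

lemma Solvable.mono {A B D E : V → ℕ} (h : Solvable G A D) (h1 : A ≤ B) (h2 : E ≤ D) :
    Solvable G B E := by
  have h3 : Solvable G (A + (B - A)) (D + 0) := h.add (Solvable.refl' (fun _ => Nat.zero_le _))
  rw [add_tsub_cancel_of_le h1, add_zero] at h3
  obtain ⟨C', h4, h5⟩ := h3
  exact ⟨C', h4, fun v => (h2 v).trans (h5 v)⟩

lemma Solvable.trans {A D E : V → ℕ} (h1 : Solvable G A D) (h2 : Solvable G D E) :
    Solvable G A E := by
  obtain ⟨A', hA, hA'⟩ := h1
  obtain ⟨C', h4, h5⟩ := h2.mono (B := A') (fun v => hA' v) (le_refl E)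
  exact ⟨C', hA.trans h4, h5⟩

lemma solvable_sum {ι : Type} (s : Finset ι) (A D : ι → V → ℕ)
    (h : ∀ i ∈ s, Solvable G (A i) (D i)) : Solvable G (∑ i ∈ s, A i) (∑ i ∈ s, D i) := by
  classical
  induction s using Finset.induction_on with
  | empty => simpa using Solvable.refl' (G := G) (le_refl (0 : V → ℕ))
  | insert a s ha ih =>
    rw [Finset.sum_insert ha, Finset.sum_insert ha]
    exact (h a (Finset.mem_insert_self a s)).add (ih fun i hi => h i (Finset.mem_insert_of_mem hi))

/-- two pebbles on `u` yield one on a neighbour -/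
lemma solvable_adj {u v : V} (h : G.Adj u v) : Solvable G (Pi.single u 2) (Pi.single v 1) := by
  refine ⟨Pi.single v 1, Relation.ReflTransGen.single ?_, fun _ => le_refl _⟩
  rw [step_iff]
  exact ⟨u, v, h, by rw [add_comm]⟩

lemma solvable_smul (m : ℕ) {A D : V → ℕ} (h : Solvable G A D) : Solvable G (m • A) (m • D) := by
  have := solvable_sum (G := G) (Finset.range m) (fun _ => A) (fun _ => D) (fun _ _ => h)
  simpa using this

lemma solvable_walk {u v : V} (p : G.Walk u v) :
    Solvable G (Pi.single u (2 ^ p.length)) (Pi.single v 1) := by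
  induction p with
  | nil => exact Solvable.refl' (by simp)
  | @cons a b c hab q ih =>
    refine Solvable.trans (D := Pi.single b (2 ^ q.length)) ?_ ih
    have := solvable_smul (2 ^ q.length) (solvable_adj hab)
    refine this.mono ?_ ?_
    · intro w
      by_cases hw : w = a
      · subst hw; simp [pow_succ]
      · simp [hw]
    · intro w
      by_cases hw : w = b
      · subst hw; simp
      · simp [hw]

lemma solvable_unit (hG : G.Connected) {d : ℕ} (hd : ∀ u v, G.dist u v ≤ d) (u v : V) :
    Solvable G (Pi.single u (2 ^ d)) (Pi.single v 1) := by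
  obtain ⟨p, hp⟩ := hG.exists_walk_length_eq_dist u v
  refine (solvable_walk p).mono ?_ (le_refl _)
  intro w
  by_cases hw : w = u
  · subst hw
    simp only [Pi.single_eq_same]
    rw [hp]
    exact Nat.pow_le_pow_right (by norm_num) (hd _ _)
  · simp [hw]

end basic

section weights

variable [Fintype V] [DecidableEq V] {G : SimpleGraph V}

/-- the weight of a configuration with respect to the target vertex `v` -/
noncomputable def weight (G : SimpleGraph V) (d : ℕ) (v : V) (C : V → ℕ) : ℕ :=
  ∑ x, C x * 2 ^ (d - G.dist v x)

lemma weight_add (d : ℕ) (v : V) (C D : V → ℕ) :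
    weight G d v (C + D) = weight G d v C + weight G d v D := by
  simp [weight, add_mul, Finset.sum_add_distrib]

lemma weight_single (d : ℕ) (v x : V) (m : ℕ) :
    weight G d v (Pi.single x m) = m * 2 ^ (d - G.dist v x) := by
  rw [weight, Finset.sum_eq_single x]
  · simp
  · intro b _ hb; simp [hb]
  · intro h; exact absurd (Finset.mem_univ x) h

lemma weight_step (hG : G.Connected) (d : ℕ) (v : V) {C C' : V → ℕ} (h : Step G C C') :
    weight G d v C' ≤ weight G d v C := by
  rw [step_iff] at h
  obtain ⟨a, b, hab, h⟩ := h
  have h1 := congrArg (weight G d v) h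
  rw [weight_add, weight_add, weight_single, weight_single, one_mul] at h1
  have h2 : G.dist v a ≤ G.dist v b + 1 := by
    have h3 := hG.dist_triangle (u := v) (v := b) (w := a)
    have h4 : G.dist b a ≤ 1 := by
      have := SimpleGraph.dist_eq_one_iff_adj.mpr hab.symm
      omega
    omega
  have h5 : 2 ^ (d - G.dist v b) ≤ 2 * 2 ^ (d - G.dist v a) := by
    rw [← pow_succ']
    exact Nat.pow_le_pow_right (by norm_num) (by omega)
  omega

lemma weight_solvable (hG : G.Connected) (d : ℕ) (v : V) {C D : V → ℕ} (h : Solvable G C D) :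
    weight G d v D ≤ weight G d v C := by
  obtain ⟨C', h1, h2⟩ := h
  have h3 : ∀ E : V → ℕ, Relation.ReflTransGen (Step G) C E → weight G d v E ≤ weight G d v C := by
    intro E hE
    induction hE with
    | refl => exact le_refl _
    | tail _ h4 ih => exact (weight_step hG d v h4).trans ih
  refine le_trans ?_ (h3 C' h1)
  exact Finset.sum_le_sum fun x _ => Nat.mul_le_mul_right _ (h2 x)

end weights

section bulk

variable [Fintype V] [DecidableEq V] {G : SimpleGraph V}

lemma size_add (C D : V → ℕ) : size (C + D) = size C + size D := by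
  simp [size, Finset.sum_add_distrib]

lemma size_single (x : V) (m : ℕ) : size (Pi.single x m : V → ℕ) = m := by
  simp [size]

lemma size_sum {ι : Type} (s : Finset ι) (A : ι → V → ℕ) :
    size (∑ i ∈ s, A i) = ∑ i ∈ s, size (A i) := by
  simp only [size, Finset.sum_apply]
  rw [Finset.sum_comm]

lemma size_mono {C D : V → ℕ} (h : C ≤ D) : size C ≤ size D :=
  Finset.sum_le_sum fun x _ => h x

/-- the number of full units of `N` pebbles -/
def units (N : ℕ) (C : V → ℕ) : ℕ := ∑ x, C x / N

lemma units_add_single (N : ℕ) (hN : 0 < N) (C : V → ℕ) (x : V) :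
    units N (C + Pi.single x N) = units N C + 1 := by
  have h1 : ∀ y, (C + Pi.single x N : V → ℕ) y / N = C y / N + (Pi.single x 1 : V → ℕ) y := by
    intro y
    by_cases h : y = x
    · subst h
      simp [Nat.add_div_right _ hN]
    · simp [h]
  simp only [units, h1, Finset.sum_add_distrib]
  simp

lemma size_le_units (N : ℕ) (hN : 0 < N) (C : V → ℕ) :
    size C ≤ N * units N C + Fintype.card V * (N - 1) := by
  have h1 : ∀ x, C x ≤ N * (C x / N) + (N - 1) := by
    intro x
    have h2 := Nat.div_add_mod (C x) N
    have h3 := Nat.mod_lt (C x) hN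
    omega
  calc size C ≤ ∑ x, (N * (C x / N) + (N - 1)) := Finset.sum_le_sum fun x _ => h1 x
    _ = N * units N C + Fintype.card V * (N - 1) := by
      rw [Finset.sum_add_distrib, units, Finset.mul_sum]
      simp

/-- units of `2 ^ d` pebbles are universal -/
lemma solvable_bulk (hG : G.Connected) {d : ℕ} (hd : ∀ u v, G.dist u v ≤ d) (n : ℕ) :
    ∀ C D : V → ℕ, size D = n → n ≤ units (2 ^ d) C → Solvable G C D := by
  induction n with
  | zero =>
    intro C D hD _
    have : D = 0 := by
      funext x
      have := (Finset.sum_eq_zero_iff_of_nonneg (fun x _ => Nat.zero_le (D x))).mp hD x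
        (Finset.mem_univ x)
      simpa using this
    subst this
    exact Solvable.refl' (fun _ => Nat.zero_le _)
  | succ n ih =>
    intro C D hD hC
    have h1 : ∃ v, D v ≠ 0 := by
      by_contra hc
      push Not at hc
      simp [size, hc] at hD
    obtain ⟨v, hv⟩ := h1
    have h2 : ∃ x, C x / 2 ^ d ≠ 0 := by
      by_contra hc
      push Not at hc
      simp [units, hc] at hC
    obtain ⟨x, hx⟩ := h2
    have hx' : 2 ^ d ≤ C x := by
      by_contra hc
      exact hx (Nat.div_eq_of_lt (by omega))
    have h3 : C - Pi.single x (2 ^ d) + Pi.single x (2 ^ d) = C := by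
      apply tsub_add_cancel_of_le
      intro y
      by_cases h : y = x
      · subst h; simpa using hx'
      · simp [h]
    have h4 : D - Pi.single v 1 + Pi.single v 1 = D := by
      apply tsub_add_cancel_of_le
      intro y
      by_cases h : y = v
      · subst h; simp; omega
      · simp [h]
    rw [← h3, ← h4]
    refine (ih _ _ ?_ ?_).add (solvable_unit hG hd x v)
    · have := congrArg size h4
      rw [size_add, size_single] at this
      omega
    · have := units_add_single (2 ^ d) (by positivity) (C - Pi.single x (2 ^ d)) x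
      rw [h3] at this
      omega

end bulk

section decomposition

variable [DecidableEq V] {G : SimpleGraph V}

/-- a solution can be split into solutions of the single targets -/
lemma decomposition {ι : Type} [Fintype ι] (x : ι → V) {C C' : V → ℕ}
    (h : Relation.ReflTransGen (Step G) C C') (hC' : ∑ i, (Pi.single (x i) 1 : V → ℕ) ≤ C') :
    ∃ A : ι → V → ℕ, ∑ i, A i ≤ C ∧ ∀ i, Solvable G (A i) (Pi.single (x i) 1) := by
  classical
  induction h using Relation.ReflTransGen.head_induction_on with
  | refl => exact ⟨fun i => Pi.single (x i) 1, hC', fun i => Solvable.refl' (le_refl _)⟩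
  | @head C C1 hstep _ ih =>
    obtain ⟨A, hA, hs⟩ := ih
    rw [step_iff] at hstep
    obtain ⟨a, b, hab, heq⟩ := hstep
    by_cases hb : (∑ i, A i) b ≤ C b
    · refine ⟨A, ?_, hs⟩
      intro y
      by_cases hy : y = b
      · subst hy; exact hb
      · have h1 := congrFun heq y
        have h2 : (∑ i, A i) y ≤ C1 y := hA y
        simp only [Pi.add_apply, Pi.single_eq_of_ne hy, add_zero] at h1
        show (∑ i, A i) y ≤ C y
        omega
    · have hb1 : C1 b = C b + 1 := by
        have h1 := congrFun heq b
        simp only [Pi.add_apply, Pi.single_eq_same, Pi.single_eq_of_ne hab.ne.symm, add_zero] at h1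
        exact h1
      have h2 : (∑ i, A i) b ≠ 0 := by omega
      have h3 : ∃ i, A i b ≠ 0 := by
        by_contra hc
        push Not at hc
        apply h2
        simp [Finset.sum_apply, hc]
      obtain ⟨i0, hi0⟩ := h3
      obtain ⟨B, h4⟩ : ∃ B : V → ℕ, B + Pi.single b 1 = A i0 := by
        refine ⟨A i0 - Pi.single b 1, ?_⟩
        apply tsub_add_cancel_of_le
        intro y
        by_cases h : y = b
        · subst h; simp; omega
        · simp [h]
      refine ⟨Function.update A i0 (B + Pi.single a 2), ?_, ?_⟩
      · have h5 : ∑ i, Function.update A i0 (B + Pi.single a 2) i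
            + Pi.single b 1 = ∑ i, A i + Pi.single a 2 := by
          rw [← Finset.add_sum_erase _ _ (Finset.mem_univ i0),
            ← Finset.add_sum_erase _ A (Finset.mem_univ i0)]
          have h6 : ∑ i ∈ Finset.univ.erase i0, Function.update A i0 (B + Pi.single a 2) i
              = ∑ i ∈ Finset.univ.erase i0, A i := by
            refine Finset.sum_congr rfl fun i hi => ?_
            rw [Function.update_of_ne (Finset.ne_of_mem_erase hi)]
          rw [h6, Function.update_self, ← h4]
          abel
        intro y
        have h7 := congrFun h5 y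
        have h8 := congrFun heq y
        have h9 : (∑ i, A i) y ≤ C1 y := hA y
        simp only [Pi.add_apply] at h7 h8
        show (∑ i, Function.update A i0 (B + Pi.single a 2) i) y ≤ C y
        omega
      · intro i
        by_cases hi : i = i0
        · subst hi
          rw [Function.update_self]
          refine Solvable.trans ?_ (hs i)
          have h10 := (Solvable.refl' (G := G) (le_refl B)).add (solvable_adj hab)
          rwa [h4] at h10
        · rw [Function.update_of_ne hi]
          exact hs i

end decomposition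

section core

variable [Fintype V] [DecidableEq V] {G : SimpleGraph V}

lemma solvable_core (hG : G.Connected) {d : ℕ} (hd : ∀ u v, G.dist u v ≤ d) {k : ℕ} {C D : V → ℕ}
    {u : V} (hC : k * 2 ^ d ≤ size C) (hs : Solvable G C (Pi.single u k)) (hD : size D = k)
    (hu : 2 * (Fintype.card V * 2 ^ d) ≤ D u) : Solvable G C D := by
  classical
  haveI : Nonempty V := ⟨u⟩
  set N := 2 ^ d with hN
  set n := Fintype.card V with hn
  have hNpos : 0 < N := by positivity
  obtain ⟨C', hreach, hC'⟩ := hs
  obtain ⟨A, hA, hsA⟩ := decomposition (fun _ : Fin k => u) hreach (by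
    have : ∑ _i : Fin k, (Pi.single u 1 : V → ℕ) = Pi.single u k := by
      funext y
      by_cases h : y = u
      · subst h; simp
      · simp [h]
    rw [this]
    exact hC')
  -- combining lemma
  have combine : ∀ (J : Finset (Fin k)) (B : V → ℕ), ∑ i ∈ J, A i + B ≤ C → #J ≤ D u →
      k - #J ≤ units N B → Solvable G C D := by
    intro J B hJB hJu hB
    have h1 : Solvable G (∑ i ∈ J, A i) (Pi.single u (#J)) := by
      have := solvable_sum (G := G) J A (fun _ => Pi.single u 1) (fun i _ => hsA i)
      have h2 : ∑ _i ∈ J, (Pi.single u 1 : V → ℕ) = Pi.single u (#J) := by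
        funext y
        by_cases h : y = u
        · subst h; simp
        · simp [h]
      rwa [h2] at this
    have h3 : Pi.single u (#J) + (D - Pi.single u (#J)) = D := by
      apply add_tsub_cancel_of_le
      intro y
      by_cases h : y = u
      · subst h; simpa using hJu
      · simp [h]
    have h4 : size (D - Pi.single u (#J)) = k - #J := by
      have := congrArg size h3
      rw [size_add, size_single] at this
      omega
    have h5 : Solvable G B (D - Pi.single u (#J)) := solvable_bulk hG hd _ B _ h4 hB
    have h6 := h1.add h5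
    rw [h3] at h6
    exact h6.mono hJB (le_refl _)
  set E : Finset (Fin k) := Finset.univ.filter (fun i => size (A i) < N) with hE
  by_cases hcase : n * (N - 1) ≤ #E
  · -- many cheap parts
    obtain ⟨J, hJE, hJcard⟩ := Finset.exists_subset_card_eq hcase
    have hle : ∑ i ∈ J, A i ≤ C := by
      refine le_trans ?_ hA
      exact Finset.sum_le_sum_of_subset (Finset.subset_univ J)
    apply combine J (C - ∑ i ∈ J, A i)
    · rw [add_tsub_cancel_of_le hle]
    · have : n * (N - 1) ≤ n * N := Nat.mul_le_mul_left _ (Nat.sub_le _ _)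
      omega
    · have h1 := size_le_units N hNpos (C - ∑ i ∈ J, A i)
      have h2 : size C = size (∑ i ∈ J, A i) + size (C - ∑ i ∈ J, A i) := by
        rw [← size_add, add_tsub_cancel_of_le hle]
      have h3 : size (∑ i ∈ J, A i) ≤ #J * (N - 1) := by
        rw [size_sum, ← smul_eq_mul]
        apply Finset.sum_le_card_nsmul
        intro i hi
        have := (Finset.mem_filter.mp (hJE hi)).2
        omega
      rw [← hn] at h1
      have h4 : #J ≤ k := by
        have := Finset.card_le_univ J
        simpa using this
      have h5 : (k - #J) * N ≤ units N (C - ∑ i ∈ J, A i) * N := by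
        rw [Nat.sub_mul]
        have h6 : #J * (N - 1) + #J = #J * N := by
          rw [← Nat.mul_succ]
          congr 1
          omega
        have h7 : units N (C - ∑ i ∈ J, A i) * N = N * units N (C - ∑ i ∈ J, A i) := mul_comm _ _
        omega
      exact Nat.le_of_mul_le_mul_right h5 hNpos
  · -- few cheap parts: zero-sum argument
    push Not at hcase
    set F : Finset (Fin k) := Finset.univ.filter (fun i => ¬ size (A i) < N) with hF
    -- minimal remainder
    let a : Fin k → V → ZMod (2 ^ d) := fun i x => ((A i x : ℕ) : ZMod (2 ^ d))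
    let good : Finset (Finset (Fin k)) := F.powerset.filter (fun J => ∑ i ∈ F \ J, a i = 0)
    have hgood : good.Nonempty := ⟨F, by simp [good]⟩
    obtain ⟨J, hJ, hmin⟩ := Finset.exists_min_image good (fun J => #J) hgood
    have hJ' : J ⊆ F ∧ ∑ i ∈ F \ J, a i = 0 := by simpa [good] using hJ
    have hJcard : #J < n * N := by
      by_contra hc
      push Not at hc
      obtain ⟨T, hTJ, hTne, hT0⟩ := Pool.Agent.Helper73.exists_zero_sum J a hc
      have hgoodT : J \ T ∈ good := by
        simp only [good, Finset.mem_filter, Finset.mem_powerset]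
        refine ⟨Finset.sdiff_subset.trans hJ'.1, ?_⟩
        have : F \ (J \ T) = (F \ J) ∪ T := by
          ext i
          simp only [Finset.mem_sdiff, Finset.mem_union]
          constructor
          · rintro ⟨h1, h2⟩
            by_cases h3 : i ∈ J
            · right
              by_contra h4
              exact h2 ⟨h3, h4⟩
            · exact Or.inl ⟨h1, h3⟩
          · rintro (⟨h1, h2⟩ | h1)
            · exact ⟨h1, fun h3 => h2 h3.1⟩
            · exact ⟨hJ'.1 (hTJ h1), fun h3 => h3.2 h1⟩
        rw [this, Finset.sum_union, hJ'.2, hT0, add_zero]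
        rw [Finset.disjoint_left]
        intro i h1 h2
        exact (Finset.mem_sdiff.mp h1).2 (hTJ h2)
      have h1 := hmin _ hgoodT
      have h2 : #(J \ T) < #J := by
        rw [Finset.card_sdiff_of_subset hTJ]
        have := hTne.card_pos
        have := Finset.card_le_card hTJ
        omega
      omega
    have hEF : Disjoint E F := Finset.disjoint_filter_filter_not _ _ _
    have hEJ : Disjoint E J := hEF.mono_right hJ'.1
    have hdisj : Disjoint (E ∪ J) (F \ J) := by
      rw [Finset.disjoint_union_left]
      exact ⟨hEF.mono_right Finset.sdiff_subset, Finset.disjoint_sdiff⟩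
    have huniv : (E ∪ J) ∪ (F \ J) = Finset.univ := by
      ext i
      simp only [Finset.mem_union, Finset.mem_sdiff, Finset.mem_univ, iff_true]
      by_cases h1 : i ∈ J
      · exact Or.inl (Or.inr h1)
      · by_cases h2 : size (A i) < N
        · exact Or.inl (Or.inl (Finset.mem_filter.mpr ⟨Finset.mem_univ _, h2⟩))
        · exact Or.inr ⟨Finset.mem_filter.mpr ⟨Finset.mem_univ _, h2⟩, h1⟩
    have hcardk : #(E ∪ J) + #(F \ J) = k := by
      rw [← Finset.card_union_of_disjoint hdisj, huniv]
      simp
    apply combine (E ∪ J) (∑ i ∈ F \ J, A i)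
    · rw [← Finset.sum_union hdisj, huniv]
      exact hA
    · rw [Finset.card_union_of_disjoint hEJ]
      have : n * (N - 1) ≤ n * N := Nat.mul_le_mul_left _ (Nat.sub_le _ _)
      omega
    · have h1 : ∀ x, N ∣ (∑ i ∈ F \ J, A i) x := by
        intro x
        have h2 := congrFun hJ'.2 x
        simp only [Finset.sum_apply, a, Pi.zero_apply] at h2
        rw [← Nat.cast_sum, ZMod.natCast_eq_zero_iff] at h2
        rw [Finset.sum_apply]
        exact h2
      have h3 : N * units N (∑ i ∈ F \ J, A i) = size (∑ i ∈ F \ J, A i) := by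
        rw [units, Finset.mul_sum, size]
        exact Finset.sum_congr rfl fun x _ => Nat.mul_div_cancel' (h1 x)
      have h4 : #(F \ J) * N ≤ size (∑ i ∈ F \ J, A i) := by
        rw [size_sum, ← smul_eq_mul]
        apply Finset.card_nsmul_le_sum
        intro i hi
        have := (Finset.mem_filter.mp (Finset.mem_sdiff.mp hi).1).2
        omega
      have h5 : #(F \ J) * N ≤ units N (∑ i ∈ F \ J, A i) * N := by
        rw [mul_comm (units N _) N, h3]; exact h4
      have h6 := Nat.le_of_mul_le_mul_right h5 hNpos
      omega

end core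

/-- **Eventual equality.** For every finite connected graph `G` with `n` vertices and diameter `d`
and every `k ≥ 2 ^ (d + 1) * n ^ 2`, `π(G, C_k) = π_k(G)`. -/
theorem main (V : Type) [Fintype V] (G : SimpleGraph V) (hG : G.Connected) (k : ℕ)
    (hk : 2 ^ (G.diam + 1) * Fintype.card V ^ 2 ≤ k) :
    pebblingNumber G (sizeTargets V k) = pebblingNumber G (foldTargets V k) := by
  classical
  haveI : Nonempty V := hG.nonempty
  have hd : ∀ u v, G.dist u v ≤ G.diam := fun u v =>
    SimpleGraph.dist_le_diam (SimpleGraph.connected_iff_ediam_ne_top.mp hG)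
  set N := 2 ^ G.diam with hN
  have hNpos : 0 < N := by positivity
  set n := Fintype.card V with hn
  have hnpos : 0 < n := Fintype.card_pos
  set SC := {t | ∀ C : V → ℕ, size C = t → ∀ D ∈ sizeTargets V k, Solvable G C D} with hSC
  set SK := {t | ∀ C : V → ℕ, size C = t → ∀ D ∈ foldTargets V k, Solvable G C D} with hSK
  have hsub : SC ⊆ SK := by
    intro t ht C hC D hD
    refine ht C hC D ?_
    obtain ⟨v, hv, hv'⟩ := hD
    show ∑ x, D x = k
    rw [Finset.sum_eq_single v]
    · exact hv
    · intro b _ hb; exact hv' b hb
    · intro h; exact absurd (Finset.mem_univ v) h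
  have hne : SC.Nonempty := by
    refine ⟨N * k + n * (N - 1), ?_⟩
    intro C hC D hD
    refine solvable_bulk hG hd k C D hD ?_
    have h1 := size_le_units N hNpos C
    rw [hC, ← hn] at h1
    have h2 : N * k ≤ N * units N C := by omega
    exact Nat.le_of_mul_le_mul_left h2 hNpos
  have hlow : ∀ t ∈ SK, k * N ≤ t := by
    intro t ht
    obtain ⟨u, v, huv⟩ := G.exists_dist_eq_diam
    have h1 := ht (Pi.single v t) (size_single v t) (Pi.single u k)
      ⟨u, by simp, fun w hw => by simp [hw]⟩
    have h2 := weight_solvable hG G.diam u h1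
    rw [weight_single, weight_single, huv] at h2
    simpa using h2
  have hmemK : sInf SK ∈ SK := Nat.sInf_mem (hne.mono hsub)
  have hmemC : sInf SC ∈ SC := Nat.sInf_mem hne
  apply le_antisymm
  · show sInf SC ≤ sInf SK
    apply Nat.sInf_le
    intro C hC D hD
    have hD' : size D = k := hD
    have h1 : ∃ u, 2 * (n * N) ≤ D u := by
      by_contra hc
      push Not at hc
      have h2 : size D < ∑ _x : V, 2 * (n * N) :=
        Finset.sum_lt_sum_of_nonempty Finset.univ_nonempty fun x _ => hc x
      rw [Finset.sum_const, Finset.card_univ, smul_eq_mul, hD', ← hn] at h2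
      have h3 : 2 ^ (G.diam + 1) * n ^ 2 = n * (2 * (n * N)) := by
        rw [hN]; ring
      omega
    obtain ⟨u, hu⟩ := h1
    refine solvable_core hG hd (k := k) (u := u) ?_ ?_ hD' hu
    · rw [hC]
      exact hlow _ hmemK
    · exact hmemK C hC _ ⟨u, by simp, fun w hw => by simp [hw]⟩
  · show sInf SK ≤ sInf SC
    exact Nat.sInf_le (hsub hmemC)

end Pool.Agent.Helper73.EE
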